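import Pool.Agent.H763R2.Sq.Tri

/-! Jordan curves: finding the two arcs. -/

set_option autoImplicit false
open Complex Set Topology Metric

namespace Pool.Agent.H763R2.Sq

theorem mem_of_adj {C : Set ℂ} (hC : IsClosed C) {c : ℂ}
    (h : ∀ r > 0, ∃ z1 ∈ ball c r, ∃ z2 ∈ ball c r, z1 ∉ Outer C ∧ z2 ∈ Outer C) : c ∈ C := by
  by_contra hc
  obtain ⟨r, hr, hb⟩ := Metric.isOpen_iff.1 hC.isOpen_compl c hc
  obtain ⟨z1, h1, z2, h2, h3, h4⟩ := h r hr
  apply h3
  refine ⟨hb h1, ?_⟩
  have : z1 ∈ connectedComponentIn Cᶜ z2 :=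
    ((convex_ball c r).isPreconnected.subset_connectedComponentIn h2 hb) h1
  rw [← connectedComponentIn_eq this]
  exact h4.2

theorem arc_avoid {γ : Circle → ℂ} (hγ : Continuous γ) (hinj : Function.Injective γ) {P V Q : ℂ}
    (hP : P ∈ range γ) (hV : V ∈ range γ) (hQ : Q ∈ range γ) (hPQ : P ≠ Q)
    (hVQ : V ≠ Q) (hPV : P ≠ V) :
    ∃ f : ℝ → ℂ, Continuous f ∧ f 0 = P ∧ f 1 = V ∧ (∀ t, f t ∈ range γ) ∧
      ∀ t ∈ Ioo (0:ℝ) 1, f t ≠ P ∧ f t ≠ V ∧ f t ≠ Q := by
  obtain ⟨p, rfl⟩ := hP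
  obtain ⟨v, rfl⟩ := hV
  obtain ⟨q, rfl⟩ := hQ
  have hpi := Real.pi_pos
  set k : Circle := q * Circle.exp Real.pi with hk
  set ψ : Circle → ℝ := fun z => ((k⁻¹ * z : Circle) : ℂ).arg with hψ
  set E : ℝ → Circle := fun t => k * Circle.exp t with hE
  have hEc : Continuous E := by
    have : Continuous Circle.exp := Circle.exp.continuous
    exact continuous_const.mul this
  have hEψ : ∀ z, E (ψ z) = z := by
    intro z
    simp only [hE, hψ]
    rw [Circle.exp_arg, mul_inv_cancel_left]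
  have hψE : ∀ t, -Real.pi < t → t ≤ Real.pi → ψ (E t) = t := by
    intro t h1 h2
    simp only [hE, hψ]
    rw [inv_mul_cancel_left, Circle.arg_exp h1 h2]
  have hc : ψ q = Real.pi := by
    have : q = E Real.pi := by
      simp only [hE]
      rw [hk, mul_assoc, ← Circle.exp_add]
      have : Circle.exp (Real.pi + Real.pi) = 1 := by
        rw [← two_mul]; exact Circle.exp_two_pi
      rw [this, mul_one]
    rw [this, hψE _ (by linarith) le_rfl]
  have hψr : ∀ z, z ≠ q → -Real.pi < ψ z ∧ ψ z < Real.pi := by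
    intro z hz
    refine ⟨Complex.neg_pi_lt_arg _, lt_of_le_of_ne (Complex.arg_le_pi _) (fun h => ?_)⟩
    apply hz
    rw [← hEψ z, ← hEψ q, hc]
    congr 1
  obtain ⟨a1, a2⟩ := hψr p (fun h => hPQ (congrArg γ h))
  obtain ⟨b1, b2⟩ := hψr v (fun h => hVQ (congrArg γ h))
  have hne : ψ p ≠ ψ v := by
    intro h
    apply hPV
    rw [← hEψ p, ← hEψ v, h]
  have hmid : ∀ t ∈ Icc (0:ℝ) 1, -Real.pi < ψ p + t * (ψ v - ψ p) ∧
      ψ p + t * (ψ v - ψ p) < Real.pi := by
    intro t ht
    constructor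
    · nlinarith [mul_nonneg ht.1 (show 0 ≤ ψ v + Real.pi by linarith),
        mul_nonneg (show 0 ≤ 1 - t by linarith [ht.2]) (show 0 ≤ ψ p + Real.pi by linarith),
        ht.1, ht.2]
    · nlinarith [mul_nonneg ht.1 (show 0 ≤ Real.pi - ψ v by linarith),
        mul_nonneg (show 0 ≤ 1 - t by linarith [ht.2]) (show 0 ≤ Real.pi - ψ p by linarith),
        ht.1, ht.2]
  have hval : ∀ t ∈ Icc (0:ℝ) 1, ψ (E (ψ p + t * (ψ v - ψ p))) = ψ p + t * (ψ v - ψ p) :=
    fun t ht => hψE _ (hmid t ht).1 (hmid t ht).2.le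
  refine ⟨fun t => γ (E (ψ p + t * (ψ v - ψ p))), hγ.comp (hEc.comp (by fun_prop)), ?_, ?_,
    fun t => mem_range_self _, ?_⟩
  · simp only [zero_mul, add_zero]
    rw [hEψ]
  · simp only [one_mul, add_sub_cancel]
    rw [hEψ]
  · intro t ht
    have ht' : t ∈ Icc (0:ℝ) 1 := ⟨ht.1.le, ht.2.le⟩
    have hv := hval t ht'
    refine ⟨fun h => ?_, fun h => ?_, fun h => ?_⟩
    · rw [hinj h] at hv
      have : t * (ψ v - ψ p) = 0 := by linarith
      rcases mul_eq_zero.1 this with h1 | h1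
      · exact ht.1.ne' h1
      · exact hne (by linarith)
    · rw [hinj h] at hv
      have : (1 - t) * (ψ v - ψ p) = 0 := by linarith
      rcases mul_eq_zero.1 this with h1 | h1
      · exact ht.2.ne (by linarith)
      · exact hne (by linarith)
    · rw [hinj h, hc] at hv
      linarith [(hmid t ht').2]

theorem split_closed {f : ℝ → ℂ} (hf : Continuous f) {X Y : Set ℂ} (hX : IsClosed X)
    (hY : IsClosed Y) (h1 : ∀ t ∈ Ioo (0:ℝ) 1, f t ∈ X ∪ Y)
    (h2 : ∀ t ∈ Ioo (0:ℝ) 1, f t ∈ X → f t ∈ Y → False) :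
    (∀ t ∈ Icc (0:ℝ) 1, f t ∈ X) ∨ (∀ t ∈ Icc (0:ℝ) 1, f t ∈ Y) := by
  have hpre : IsPreconnected (f '' Ioo 0 1) := isPreconnected_Ioo.image _ hf.continuousOn
  have hcl : ∀ Z : Set ℂ, IsClosed Z → f '' Ioo 0 1 ⊆ Z → ∀ t ∈ Icc (0:ℝ) 1, f t ∈ Z := by
    intro Z hZ hs t ht
    have h3 : Icc (0:ℝ) 1 ⊆ f ⁻¹' Z := by
      rw [← closure_Ioo (show (0:ℝ) ≠ 1 by norm_num)]
      exact closure_minimal (fun x hx => hs ⟨x, hx, rfl⟩) (hZ.preimage hf)
    exact h3 ht
  rcases isPreconnected_iff_subset_of_disjoint_closed.1 hpre X Y hX hY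
    (by rintro _ ⟨t, ht, rfl⟩; exact h1 t ht)
    (by
      rw [Set.eq_empty_iff_forall_notMem]
      rintro _ ⟨⟨t, ht, rfl⟩, h3, h4⟩
      exact h2 t ht h3 h4) with h | h
  · left; exact hcl X hX h
  · right; exact hcl Y hY h

theorem joinedIn_of {f : ℝ → ℂ} (hf : Continuous f) {Z : Set ℂ}
    (h : ∀ t ∈ Icc (0:ℝ) 1, f t ∈ Z) : JoinedIn Z (f 0) (f 1) := by
  refine ⟨⟨⟨fun t => f t, hf.comp continuous_subtype_val⟩, by simp, by simp⟩, fun t => ?_⟩
  exact h t t.2

theorem U1_closed : IsClosed U1 := by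
  have h1 : IsClosed {z : ℂ | z.re ≤ 2} := isClosed_le continuous_re continuous_const
  have h2 : IsClosed {z : ℂ | z.im ≤ 1} := isClosed_le continuous_im continuous_const
  have h3 : IsClosed {z : ℂ | 2 ≤ z.re + z.im} :=
    isClosed_le continuous_const (continuous_re.add continuous_im)
  exact h1.inter (h2.inter h3)

theorem U0_closed : IsClosed U0 := by
  have h1 : IsClosed {z : ℂ | z.re ≤ 2} := isClosed_le continuous_re continuous_const
  have h2 : IsClosed {z : ℂ | -1 ≤ z.im} := isClosed_le continuous_const continuous_im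
  have h3 : IsClosed {z : ℂ | 2 ≤ z.re - z.im} :=
    isClosed_le continuous_const (continuous_re.sub continuous_im)
  exact h1.inter (h2.inter h3)

theorem L_closed : IsClosed {z : ℂ | z.re ≤ 1} := isClosed_le continuous_re continuous_const

theorem ball_of {c : ℂ} {r : ℝ} (hr : 0 < r) (a b : ℝ) (hab : |a| + |b| ≤ 3) :
    c + ((min r 1 / 8 : ℝ) : ℂ) * ⟨a, b⟩ ∈ ball c r := by
  rw [mem_ball, dist_eq, add_sub_cancel_left, norm_mul, norm_real, Real.norm_eq_abs]
  have h0 : 0 < min r 1 := lt_min hr one_pos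
  rw [abs_of_pos (by linarith)]
  have h1 : ‖(⟨a, b⟩ : ℂ)‖ ≤ 3 := (norm_le_abs_re_add_abs_im _).trans hab
  have h2 : min r 1 ≤ r := min_le_left _ _
  nlinarith [norm_nonneg (⟨a, b⟩ : ℂ)]

theorem joined {γ : Circle → ℂ} (hγ : Continuous γ) (hinj : Function.Injective γ)
    (hbox : ∀ z ∈ range γ, 1 < z.re → z.re ≤ 2 ∧ |z.im| ≤ 1)
    (hin : ∀ z ∈ East, z ∉ range γ ∧ z ∉ Outer (range γ))
    (hout : ∀ z ∈ NS, z ∈ Outer (range γ)) :
    JoinedIn (range γ ∩ U0) ⟨1, -1⟩ ⟨2, 0⟩ ∧ JoinedIn (range γ ∩ U1) ⟨2, 0⟩ ⟨1, 1⟩ := by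
  have hC : IsClosed (range γ) := (isCompact_range hγ).isClosed
  have key : ∀ r : ℝ, 0 < r → 0 < min r 1 / 8 ∧ min r 1 / 8 ≤ 1 / 8 := by
    intro r hr
    have h0 : 0 < min r 1 := lt_min hr one_pos
    have h1 : min r 1 ≤ 1 := min_le_right _ _
    constructor <;> linarith
  have mP : (⟨1, -1⟩ : ℂ) ∈ range γ := by
    apply mem_of_adj hC
    intro r hr
    obtain ⟨k1, k2⟩ := key r hr
    refine ⟨_, ball_of hr 1 2 (by norm_num), _, ball_of hr (-2) (-1) (by norm_num), ?_, ?_⟩
    · apply (hin _ _).2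
      constructor
      · simp only [add_re, re_ofReal_mul]; linarith
      · simp only [add_re, re_ofReal_mul, add_im, im_ofReal_mul]
        rcases abs_cases (-1 + min r 1 / 8 * 2) with h | h <;> linarith
    · apply hout
      constructor
      · simp only [add_im, im_ofReal_mul]
        rcases abs_cases (-1 + min r 1 / 8 * (-1)) with h | h <;> linarith
      · simp only [add_re, re_ofReal_mul, add_im, im_ofReal_mul]
        rcases abs_cases (-1 + min r 1 / 8 * (-1)) with h | h <;>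
          rcases abs_cases (1 + min r 1 / 8 * (-2)) with h' | h' <;> linarith
  have mQ : (⟨1, 1⟩ : ℂ) ∈ range γ := by
    apply mem_of_adj hC
    intro r hr
    obtain ⟨k1, k2⟩ := key r hr
    refine ⟨_, ball_of hr 1 (-2) (by norm_num), _, ball_of hr (-2) 1 (by norm_num), ?_, ?_⟩
    · apply (hin _ _).2
      constructor
      · simp only [add_re, re_ofReal_mul]; linarith
      · simp only [add_re, re_ofReal_mul, add_im, im_ofReal_mul]
        rcases abs_cases (1 + min r 1 / 8 * (-2)) with h | h <;> linarith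
    · apply hout
      constructor
      · simp only [add_im, im_ofReal_mul]
        rcases abs_cases (1 + min r 1 / 8 * 1) with h | h <;> linarith
      · simp only [add_re, re_ofReal_mul, add_im, im_ofReal_mul]
        rcases abs_cases (1 + min r 1 / 8 * 1) with h | h <;>
          rcases abs_cases (1 + min r 1 / 8 * (-2)) with h' | h' <;> linarith
  have mV : (⟨2, 0⟩ : ℂ) ∈ range γ := by
    apply mem_of_adj hC
    intro r hr
    obtain ⟨k1, k2⟩ := key r hr
    refine ⟨_, ball_of hr (-1) 0 (by norm_num), _, ball_of hr 1 0 (by norm_num), ?_, ?_⟩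
    · apply (hin _ _).2
      constructor
      · simp only [add_re, re_ofReal_mul]; linarith
      · simp only [add_re, re_ofReal_mul, add_im, im_ofReal_mul]
        norm_num
        linarith
    · apply outer_of_ray (d := 1) one_ne_zero
      intro s hs hmem
      have e : ((⟨2, 0⟩ : ℂ) + ((min r 1 / 8 : ℝ) : ℂ) * ⟨1, 0⟩ + s * 1).re =
          2 + min r 1 / 8 + s := by
        simp only [add_re, re_ofReal_mul, mul_one, ofReal_re]
      have := (hbox _ hmem (by rw [e]; linarith)).1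
      rw [e] at this
      linarith
  have n1 : (⟨1, -1⟩ : ℂ) ≠ ⟨1, 1⟩ := by
    intro h; have := congrArg Complex.im h; norm_num at this
  have n2 : (⟨2, 0⟩ : ℂ) ≠ ⟨1, 1⟩ := by
    intro h; have := congrArg Complex.im h; norm_num at this
  have n3 : (⟨1, -1⟩ : ℂ) ≠ ⟨2, 0⟩ := by
    intro h; have := congrArg Complex.im h; norm_num at this
  have cover : ∀ z ∈ range γ, z ∈ U0 ∨ z ∈ U1 ∨ z.re ≤ 1 := by
    intro z hz
    rcases le_or_gt z.re 1 with h | h
    · right; right; exact h
    · obtain ⟨b1, b2⟩ := hbox z hz h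
      have h3 : 2 ≤ z.re + |z.im| := by
        by_contra h4
        push Not at h4
        exact (hin z ⟨h, h4⟩).1 hz
      rcases abs_cases z.im with h4 | h4
      · right; left
        exact ⟨b1, by linarith, by linarith⟩
      · left
        exact ⟨b1, by linarith, by linarith⟩
  have i01 : ∀ z, z ∈ U0 → z ∈ U1 → z = ⟨2, 0⟩ := by
    rintro z ⟨a1, a2, a3⟩ ⟨b1, b2, b3⟩
    apply Complex.ext
    · show z.re = 2; linarith
    · show z.im = 0; linarith
  have i0L : ∀ z, z ∈ U0 → z.re ≤ 1 → z = ⟨1, -1⟩ := by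
    rintro z ⟨a1, a2, a3⟩ b1
    apply Complex.ext
    · show z.re = 1; linarith
    · show z.im = -1; linarith
  have i1L : ∀ z, z ∈ U1 → z.re ≤ 1 → z = ⟨1, 1⟩ := by
    rintro z ⟨a1, a2, a3⟩ b1
    apply Complex.ext
    · show z.re = 1; linarith
    · show z.im = 1; linarith
  constructor
  · obtain ⟨f, hf, f0, f1, fr, fa⟩ := arc_avoid hγ hinj mP mV mQ n1 n2 n3
    rw [← f0, ← f1]
    apply joinedIn_of hf
    suffices h : ∀ t ∈ Icc (0:ℝ) 1, f t ∈ U0 from fun t ht => ⟨fr t, h t ht⟩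
    rcases split_closed hf U0_closed (U1_closed.union L_closed)
      (fun t _ => by
        rcases cover _ (fr t) with h | h | h
        · left; exact h
        · right; left; exact h
        · right; right; exact h)
      (fun t ht h1 h2 => by
        rcases h2 with h2 | h2
        · exact (fa t ht).2.1 (i01 _ h1 h2)
        · exact (fa t ht).1 (i0L _ h1 h2)) with h | h
    · exact h
    · exfalso
      rcases split_closed hf U1_closed L_closed
        (fun t ht => h t ⟨ht.1.le, ht.2.le⟩)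
        (fun t ht h1 h2 => (fa t ht).2.2 (i1L _ h1 h2)) with h' | h'
      · have := (h' 0 (by norm_num)).2.2
        rw [f0] at this
        norm_num at this
      · have := h' 1 (by norm_num)
        rw [f1] at this
        rw [mem_ofPred_eq] at this
        norm_num at this
  · obtain ⟨f, hf, f0, f1, fr, fa⟩ := arc_avoid hγ hinj mV mQ mP n3.symm n1.symm n2
    rw [← f0, ← f1]
    apply joinedIn_of hf
    suffices h : ∀ t ∈ Icc (0:ℝ) 1, f t ∈ U1 from fun t ht => ⟨fr t, h t ht⟩
    rcases split_closed hf U1_closed (U0_closed.union L_closed)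
      (fun t _ => by
        rcases cover _ (fr t) with h | h | h
        · right; left; exact h
        · left; exact h
        · right; right; exact h)
      (fun t ht h1 h2 => by
        rcases h2 with h2 | h2
        · exact (fa t ht).1 (i01 _ h2 h1)
        · exact (fa t ht).2.1 (i1L _ h1 h2)) with h | h
    · exact h
    · exfalso
      rcases split_closed hf U0_closed L_closed
        (fun t ht => h t ⟨ht.1.le, ht.2.le⟩)
        (fun t ht h1 h2 => (fa t ht).2.2 (i0L _ h1 h2)) with h' | h'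
      · have := (h' 1 (by norm_num)).2.2
        rw [f1] at this
        norm_num at this
      · have := h' 0 (by norm_num)
        rw [f0] at this
        rw [mem_ofPred_eq] at this
        norm_num at this

end Pool.Agent.H763R2.Sq
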