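import Pool.Agent.H763R2.Sq.Abs

/-! The triangle version. -/

set_option autoImplicit false
open Complex Set Topology Metric

namespace Pool.Agent.H763R2.Sq

/-- the east triangle (erected on the right side of the square `[-1,1]^2`) -/
def East : Set ℂ := {z | 1 < z.re ∧ z.re + |z.im| < 2}
/-- the north and south triangles -/
def NS : Set ℂ := {z | 1 < |z.im| ∧ |z.re| + |z.im| < 2}
/-- the closed corner triangles of the box `[1,2] × [-1,1]` next to the east triangle -/
def U1 : Set ℂ := {z | z.re ≤ 2 ∧ z.im ≤ 1 ∧ 2 ≤ z.re + z.im}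
def U0 : Set ℂ := {z | z.re ≤ 2 ∧ -1 ≤ z.im ∧ 2 ≤ z.re - z.im}

theorem lim_nonpos' {f : ℝ → ℝ} (hf : Continuous f) (h : ∀ t ∈ Ioo (0:ℝ) 1, f t ≤ 0) :
    f 0 ≤ 0 := by
  have h1 : Filter.Tendsto f (𝓝[>] 0) (𝓝 (f 0)) := (hf.tendsto 0).mono_left nhdsWithin_le_nhds
  refine le_of_tendsto h1 ?_
  filter_upwards [Ioo_mem_nhdsGT (show (0:ℝ) < 1 by norm_num)] with t ht using h t ht

theorem lim_nonneg' {f : ℝ → ℝ} (hf : Continuous f) (h : ∀ t ∈ Ioo (0:ℝ) 1, 0 ≤ f t) :
    0 ≤ f 0 := by
  have := lim_nonpos' (f := fun t => - f t) hf.neg (fun t ht => by simpa using h t ht)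
  simpa using this

variable {C : Set ℂ}

theorem pos_E (hC : IsClosed C) (hne : C.Nonempty) (hin : ∀ z ∈ East, z ∉ Outer C) {z : ℂ}
    (h1 : 1 ≤ z.re) (h2 : z.re + |z.im| ≤ 2) : 0 ≤ sg C z := by
  have hsg := sg_cont hC hne
  have := lim_nonneg' (f := fun t : ℝ => sg C (z + t * (4/3 - z)))
    (hsg.comp (by fun_prop)) (fun t ht => by
      obtain ⟨t0, t1⟩ := ht
      apply sg_nonneg
      apply hin
      have ere : (z + t * (4/3 - z)).re = z.re + t * (4/3 - z.re) := by simp
      have eim : (z + t * (4/3 - z)).im = (1 - t) * z.im := by simp; ring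
      constructor
      · rw [ere]; nlinarith [mul_nonneg (show 0 ≤ 1 - t by linarith) (show 0 ≤ z.re - 1 by linarith)]
      · rw [ere, eim, abs_mul, abs_of_pos (show 0 < 1 - t by linarith)]
        nlinarith [mul_nonneg (show 0 ≤ 1 - t by linarith) (show 0 ≤ 2 - (z.re + |z.im|) by linarith)])
  simpa using this

theorem neg_S (hC : IsClosed C) (hne : C.Nonempty) (hout : ∀ z ∈ NS, z ∈ Outer C) {z : ℂ}
    (h1 : z.im ≤ -1) (h2 : |z.re| - z.im ≤ 2) : sg C z ≤ 0 := by
  have hsg := sg_cont hC hne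
  have := lim_nonpos' (f := fun t : ℝ => sg C (z + t * (-(4/3) * I - z)))
    (hsg.comp (by fun_prop)) (fun t ht => by
      obtain ⟨t0, t1⟩ := ht
      apply sg_nonpos
      apply hout
      have ere : (z + t * (-(4/3) * I - z)).re = (1 - t) * z.re := by simp; ring
      have eim : (z + t * (-(4/3) * I - z)).im = z.im + t * (-(4/3) - z.im) := by simp
      have hneg : z.im + t * (-(4/3) - z.im) < -1 := by
        nlinarith [mul_nonneg (show 0 ≤ 1 - t by linarith) (show 0 ≤ -1 - z.im by linarith)]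
      constructor
      · rw [eim, abs_of_neg (by linarith)]; linarith
      · rw [ere, eim, abs_mul, abs_of_pos (show 0 < 1 - t by linarith),
          abs_of_neg (show z.im + t * (-(4/3) - z.im) < 0 by linarith)]
        nlinarith [mul_nonneg (show 0 ≤ 1 - t by linarith) (show 0 ≤ 2 - (|z.re| - z.im) by linarith)])
  simpa using this

theorem neg_N (hC : IsClosed C) (hne : C.Nonempty) (hout : ∀ z ∈ NS, z ∈ Outer C) {z : ℂ}
    (h1 : 1 ≤ z.im) (h2 : |z.re| + z.im ≤ 2) : sg C z ≤ 0 := by
  have hsg := sg_cont hC hne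
  have := lim_nonpos' (f := fun t : ℝ => sg C (z + t * ((4/3) * I - z)))
    (hsg.comp (by fun_prop)) (fun t ht => by
      obtain ⟨t0, t1⟩ := ht
      apply sg_nonpos
      apply hout
      have ere : (z + t * ((4/3) * I - z)).re = (1 - t) * z.re := by simp; ring
      have eim : (z + t * ((4/3) * I - z)).im = z.im + t * ((4/3) - z.im) := by simp
      have hneg : 1 < z.im + t * ((4/3) - z.im) := by
        nlinarith [mul_nonneg (show 0 ≤ 1 - t by linarith) (show 0 ≤ z.im - 1 by linarith)]
      constructor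
      · rw [eim, abs_of_pos (by linarith)]; linarith
      · rw [ere, eim, abs_mul, abs_of_pos (show 0 < 1 - t by linarith),
          abs_of_pos (show 0 < z.im + t * ((4/3) - z.im) by linarith)]
        nlinarith [mul_nonneg (show 0 ≤ 1 - t by linarith) (show 0 ≤ 2 - (|z.re| + z.im) by linarith)])
  simpa using this

theorem Dv_re (A B : ℂ) : (Dv A B).re = A.re - (B.im - A.im) := by simp [Dv]; ring
theorem Dv_im (A B : ℂ) : (Dv A B).im = A.im + (B.re - A.re) := by simp [Dv]
theorem Cv_re (A B : ℂ) : (Cv A B).re = B.re - (B.im - A.im) := by simp [Cv]; ring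
theorem Cv_im (A B : ℂ) : (Cv A B).im = B.im + (B.re - A.re) := by simp [Cv]

/-- the triangle theorem for arbitrary closed sets -/
theorem tri (hC : IsClosed C) (hin : ∀ z ∈ East, z ∉ Outer C) (hout : ∀ z ∈ NS, z ∈ Outer C)
    (h0 : JoinedIn (C ∩ U0) ⟨1, -1⟩ ⟨2, 0⟩) (h1 : JoinedIn (C ∩ U1) ⟨2, 0⟩ ⟨1, 1⟩) :
    ∃ z w : ℂ, w ≠ 0 ∧ z ∈ C ∧ z + w ∈ C ∧ z + w + I * w ∈ C ∧ z + I * w ∈ C := by
  obtain ⟨p, hp⟩ := h0
  obtain ⟨r, hr⟩ := h1
  have hne : C.Nonempty := ⟨_, (hp 0).1⟩
  have hpe : ∀ t, p.extend t ∈ C ∩ U0 := by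
    intro t
    obtain ⟨s, hs⟩ : p.extend t ∈ range p := by rw [← p.extend_range]; exact mem_range_self t
    rw [← hs]; exact hp s
  have hre : ∀ t, r.extend t ∈ C ∩ U1 := by
    intro t
    obtain ⟨s, hs⟩ : r.extend t ∈ range r := by rw [← r.extend_range]; exact mem_range_self t
    rw [← hs]; exact hr s
  let σ : ℝ → ℂ := fun u => if u ≤ 1/2 then p.extend (2 * u) else r.extend (2 * u - 1)
  have hσ : Continuous σ := by
    refine Continuous.if_le (p.continuous_extend.comp (by fun_prop))
      (r.continuous_extend.comp (by fun_prop)) continuous_id continuous_const ?_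
    intro x hx
    have e1 : 2 * x = 1 := by rw [hx]; norm_num
    have e2 : 2 * x - 1 = 0 := by rw [hx]; norm_num
    show p.extend (2 * x) = r.extend (2 * x - 1)
    rw [e2, e1, p.extend_one, r.extend_zero]
  have hσ0 : ∀ u, u ≤ 1/2 → σ u ∈ C ∩ U0 := by
    intro u hu
    simp only [σ]
    rw [if_pos hu]; exact hpe _
  have hσ1 : ∀ u, 1/2 ≤ u → σ u ∈ C ∩ U1 := by
    intro u hu
    rcases eq_or_lt_of_le hu with h | h
    · have : σ u = r.extend 0 := by
        simp only [σ]
        rw [if_pos h.ge, ← h, r.extend_zero]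
        norm_num
      rw [this]; exact hre 0
    · simp only [σ]
      rw [if_neg (by linarith)]
      exact hre _
  have e0 : σ 0 = ⟨1, -1⟩ := by
    simp only [σ]
    rw [if_pos (by norm_num)]
    simp
  have eh : σ (1/2) = ⟨2, 0⟩ := by
    simp only [σ]
    rw [if_pos le_rfl]
    norm_num
  have e1 : σ 1 = ⟨1, 1⟩ := by
    simp only [σ]
    rw [if_neg (by norm_num)]
    have : (2:ℝ) * 1 - 1 = 1 := by norm_num
    rw [this, r.extend_one]
  obtain ⟨u, hu, v, hv, hne', hD, hCC⟩ := square_of_barrier hC hne hσ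
    (fun u _ => by
      rcases le_total u (1/2) with h | h
      · exact (hσ0 u h).1
      · exact (hσ1 u h).1)
    (Φ := fun A B => B.im - A.im - 1/2) (by fun_prop) (fun z => by norm_num)
    (fun u hu => by
      obtain ⟨g1, g2, g3⟩ := (hσ1 u hu.1).2
      apply pos_E hC hne hin
      · rw [Dv_re, e1]; simp only; linarith
      · rw [Dv_re, Dv_im, e1]; simp only
        rcases abs_cases ((σ u).im + (1 - (σ u).re)) with h | h <;> linarith)
    (fun u hu => by
      obtain ⟨g1, g2, g3⟩ := (hσ0 u hu.2).2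
      apply neg_S hC hne hout
      · rw [Dv_im, e1]; simp only; linarith
      · rw [Dv_re, Dv_im, e1]; simp only
        rcases abs_cases ((σ u).re - (1 - (σ u).im)) with h | h <;> linarith)
    (fun u hu => by
      obtain ⟨g1, g2, g3⟩ := (hσ0 u hu.2).2
      apply pos_E hC hne hin
      · rw [Cv_re, e0]; simp only; linarith
      · rw [Cv_re, Cv_im, e0]; simp only
        rcases abs_cases ((σ u).im + ((σ u).re - 1)) with h | h <;> linarith)
    (fun u hu => by
      obtain ⟨g1, g2, g3⟩ := (hσ1 u hu.1).2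
      apply neg_N hC hne hout
      · rw [Cv_im, e0]; simp only; linarith
      · rw [Cv_re, Cv_im, e0]; simp only
        rcases abs_cases ((σ u).re - ((σ u).im - -1)) with h | h <;> linarith)
    (fun u hu => by
      obtain ⟨g1, g2, g3⟩ := (hσ0 u hu.2).2
      rw [e1]; simp only; linarith)
    (fun u hu => by
      obtain ⟨g1, g2, g3⟩ := (hσ1 u hu.1).2
      rw [e0]; simp only; linarith)
    (by
      rw [eh, e1, e0]
      apply Complex.ext
      · rw [Cv_re, Dv_re]; norm_num
      · rw [Cv_im, Dv_im]; norm_num)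
    (fun u v hu hv hΦ => by
      rcases le_total v (1/2) with h4 | h4
      · -- B in U0
        right
        obtain ⟨f1, f2, f3⟩ := (hσ0 v h4).2
        rcases le_total u (1/2) with h3 | h3
        · obtain ⟨g1, g2, g3⟩ := (hσ0 u h3).2
          apply pos_E hC hne hin
          · rw [Cv_re]; linarith
          · rw [Cv_re, Cv_im]
            rcases abs_cases ((σ v).im + ((σ v).re - (σ u).re)) with h | h <;> linarith
        · obtain ⟨g1, g2, g3⟩ := (hσ1 u h3).2
          linarith
      · left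
        obtain ⟨f1, f2, f3⟩ := (hσ1 v h4).2
        rcases le_total u (1/2) with h3 | h3
        · obtain ⟨g1, g2, g3⟩ := (hσ0 u h3).2
          apply pos_E hC hne hin
          · rw [Dv_re]; linarith
          · rw [Dv_re, Dv_im]
            rcases abs_cases ((σ u).im + ((σ v).re - (σ u).re)) with h | h <;> linarith
        · obtain ⟨g1, g2, g3⟩ := (hσ1 u h3).2
          apply pos_E hC hne hin
          · rw [Dv_re]; linarith
          · rw [Dv_re, Dv_im]
            rcases abs_cases ((σ u).im + ((σ v).re - (σ u).re)) with h | h <;> linarith)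
  have hin' : ∀ u, σ u ∈ C := by
    intro u
    rcases le_total u (1/2) with h | h
    · exact (hσ0 u h).1
    · exact (hσ1 u h).1
  refine ⟨σ u, σ v - σ u, fun h => hne' (sub_eq_zero.1 h).symm, hin' u, ?_, ?_, hD⟩
  · rw [add_sub_cancel]; exact hin' v
  · rw [add_sub_cancel]; exact hCC

end Pool.Agent.H763R2.Sq
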