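import Mathlib

/-! A continuous sign function of a closed set `C` in the plane: negative on the unbounded
components of the complement of `C`, positive on the bounded ones. -/

set_option autoImplicit false
open Complex Set Topology Metric

namespace Pool.Agent.H763R2.Sq

/-- points lying in an unbounded component of the complement of `C` -/
def Outer (C : Set ℂ) : Set ℂ := {z | z ∈ Cᶜ ∧ ¬ Bornology.IsBounded (connectedComponentIn Cᶜ z)}

open Classical in
/-- the sign function -/
noncomputable def sg (C : Set ℂ) (z : ℂ) : ℝ := if z ∈ Outer C then - infDist z C else infDist z C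

variable {C : Set ℂ}

theorem outer_open (hC : IsClosed C) : IsOpen (Outer C) := by
  rw [isOpen_iff_mem_nhds]
  rintro z ⟨hz, hb⟩
  have ho : IsOpen (connectedComponentIn Cᶜ z) := hC.isOpen_compl.connectedComponentIn
  filter_upwards [ho.mem_nhds (mem_connectedComponentIn hz)] with w hw
  refine ⟨connectedComponentIn_subset _ _ hw, ?_⟩
  rwa [← connectedComponentIn_eq hw]

theorem inner_open (hC : IsClosed C) : IsOpen (Cᶜ \ Outer C) := by
  rw [isOpen_iff_mem_nhds]
  rintro z ⟨hz, hb⟩
  have ho : IsOpen (connectedComponentIn Cᶜ z) := hC.isOpen_compl.connectedComponentIn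
  filter_upwards [ho.mem_nhds (mem_connectedComponentIn hz)] with w hw
  refine ⟨connectedComponentIn_subset _ _ hw, ?_⟩
  rintro ⟨-, h2⟩
  apply hb
  refine ⟨hz, ?_⟩
  rwa [connectedComponentIn_eq hw]

theorem sg_outer {z : ℂ} (h : z ∈ Outer C) : sg C z = - infDist z C := if_pos h

theorem sg_not_outer {z : ℂ} (h : z ∉ Outer C) : sg C z = infDist z C := if_neg h

theorem sg_abs (z : ℂ) : |sg C z| = infDist z C := by
  by_cases h : z ∈ Outer C
  · rw [sg_outer h, abs_neg, abs_of_nonneg infDist_nonneg]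
  · rw [sg_not_outer h, abs_of_nonneg infDist_nonneg]

theorem sg_nonneg {z : ℂ} (h : z ∉ Outer C) : 0 ≤ sg C z := by
  rw [sg_not_outer h]; exact infDist_nonneg

theorem sg_nonpos {z : ℂ} (h : z ∈ Outer C) : sg C z ≤ 0 := by
  rw [sg_outer h]; exact neg_nonpos.2 infDist_nonneg

theorem sg_eq_zero (hC : IsClosed C) (hne : C.Nonempty) {z : ℂ} : sg C z = 0 ↔ z ∈ C := by
  rw [← abs_eq_zero, sg_abs, hC.mem_iff_infDist_zero hne]

theorem sg_cont (hC : IsClosed C) (hne : C.Nonempty) : Continuous (sg C) := by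
  rw [continuous_iff_continuousAt]
  intro z
  by_cases hz : z ∈ C
  · have h0 : sg C z = 0 := (sg_eq_zero hC hne).2 hz
    have h1 : Filter.Tendsto (fun w => infDist w C) (𝓝 z) (𝓝 0) := by
      have := (continuous_infDist_pt C).tendsto z
      rwa [(hC.mem_iff_infDist_zero hne).1 hz] at this
    rw [ContinuousAt, h0]
    refine squeeze_zero_norm (fun w => ?_) h1
    rw [Real.norm_eq_abs, sg_abs]
  by_cases ho : z ∈ Outer C
  · have h1 : sg C =ᶠ[𝓝 z] fun w => - infDist w C := by
      filter_upwards [(outer_open hC).mem_nhds ho] with w hw using sg_outer hw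
    exact ((continuous_infDist_pt C).neg.continuousAt).congr h1.symm
  · have h1 : sg C =ᶠ[𝓝 z] fun w => infDist w C := by
      filter_upwards [(inner_open hC).mem_nhds ⟨hz, ho⟩] with w hw using sg_not_outer hw.2
    exact ((continuous_infDist_pt C).continuousAt).congr h1.symm

theorem outer_of_ray {z d : ℂ} (hd : d ≠ 0) (h : ∀ r : ℝ, 0 ≤ r → z + r * d ∉ C) :
    z ∈ Outer C := by
  have h0 : z ∈ Cᶜ := by simpa using h 0 le_rfl
  refine ⟨h0, fun hb => ?_⟩
  have hsub : (fun r : ℝ => z + r * d) '' Ici 0 ⊆ connectedComponentIn Cᶜ z := by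
    refine IsPreconnected.subset_connectedComponentIn ?_ ⟨0, by simp, by simp⟩ ?_
    · exact isPreconnected_Ici.image _ (by fun_prop)
    · rintro _ ⟨r, hr, rfl⟩
      exact h r hr
  obtain ⟨R, hR⟩ := hb.exists_norm_le
  have hdn : 0 < ‖d‖ := norm_pos_iff.2 hd
  have h1 := hR _ (hsub ⟨(R + ‖z‖ + 1) / ‖d‖, by
    have : 0 ≤ R := (norm_nonneg z).trans (hR z (mem_connectedComponentIn h0))
    simp only [mem_Ici]; positivity, rfl⟩)
  simp only at h1
  have h2 : ‖((((R + ‖z‖ + 1) / ‖d‖ : ℝ) : ℂ)) * d‖ = R + ‖z‖ + 1 := by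
    have : 0 ≤ R := (norm_nonneg z).trans (hR z (mem_connectedComponentIn h0))
    rw [norm_mul, norm_real, Real.norm_of_nonneg (by positivity)]
    field_simp
  have h3 := norm_sub_le (z + (((R + ‖z‖ + 1) / ‖d‖ : ℝ) : ℂ) * d) z
  rw [add_sub_cancel_left, h2] at h3
  linarith

/-- a point of `Outer C` can be joined in the complement of `C` to points of large norm -/
theorem outer_path (hC : IsClosed C) {p : ℂ} (hp : p ∈ Outer C) (R : ℝ) :
    ∃ β : ℝ → ℂ, Continuous β ∧ β 0 = p ∧ R < ‖β 1‖ ∧ ∀ t, β t ∉ C := by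
  obtain ⟨h1, h2⟩ := hp
  have ho : IsOpen (connectedComponentIn Cᶜ p) := hC.isOpen_compl.connectedComponentIn
  obtain ⟨q, hq, hqR⟩ : ∃ q ∈ connectedComponentIn Cᶜ p, R < ‖q‖ := by
    by_contra hcon
    push Not at hcon
    exact h2 (isBounded_iff_forall_norm_le.2 ⟨R, hcon⟩)
  have hpc : IsPathConnected (connectedComponentIn Cᶜ p) :=
    (ho.isConnected_iff_isPathConnected).1 ⟨⟨p, mem_connectedComponentIn h1⟩,
      isPreconnected_connectedComponentIn⟩
  obtain ⟨γ, hγ⟩ := hpc.joinedIn p (mem_connectedComponentIn h1) q hq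
  refine ⟨γ.extend, γ.continuous_extend, γ.extend_zero, by rw [γ.extend_one]; exact hqR, ?_⟩
  intro t
  have : γ.extend t ∈ range γ := by rw [← γ.extend_range]; exact mem_range_self t
  obtain ⟨s, hs⟩ := this
  rw [← hs]
  exact connectedComponentIn_subset _ _ (hγ s)

end Pool.Agent.H763R2.Sq
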