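import Pool.Agent.H777R2.Top
import Pool.Agent.H828R2.Arc
import Pool.Agent.H763R2.Sq.Sign

/-! The open lens next to the semicircle contains no point of an unbounded component. -/

set_option autoImplicit false
open Complex Set Topology Metric

namespace Pool.Agent.H763R2.Sq

theorem log_diff_on {g k : ℝ → ℂ} (hg : Continuous g) (hk : Continuous k)
    (hexp : ∀ s, exp (k s) = g s) {c : ℂ} (hc0 : c ≠ 0)
    (hc : ∀ s ∈ Icc (0:ℝ) 1, g s / c ∈ slitPlane) :
    k 1 - k 0 = log (g 1 / c) - log (g 0 / c) := by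
  have hcont : ContinuousOn (fun s => k s - log (g s / c)) (Icc 0 1) := by
    refine hk.continuousOn.sub ?_
    exact ContinuousOn.clog (hg.div_const c).continuousOn hc
  have hval : ∀ s ∈ Icc (0:ℝ) 1, exp (k s - log (g s / c)) = c := by
    intro s hs
    have hne : g s / c ≠ 0 := slitPlane_ne_zero (hc s hs)
    have hgs : g s ≠ 0 := by
      intro h
      rw [h, zero_div] at hne
      exact hne rfl
    rw [exp_sub, hexp, exp_log hne]
    field_simp
  have := H777R2.exp_const_on isPreconnected_Icc hcont hval (x := 1) (y := 0) (by norm_num)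
    (by norm_num)
  linear_combination this

theorem log_neg_im_pos {z : ℂ} (h : 0 < z.im) : log (-z) = log z - Real.pi * I := by
  unfold Complex.log
  rw [norm_neg, arg_neg_eq_arg_sub_pi_of_im_pos h]
  push_cast; ring

theorem log_neg_im_neg {z : ℂ} (h : z.im < 0) : log (-z) = log z + Real.pi * I := by
  unfold Complex.log
  rw [norm_neg, arg_neg_eq_arg_add_pi_of_im_neg h]
  push_cast; ring

/-- the right half circle as a path, constant outside `[0,1]` -/
noncomputable def sc (s : ℝ) : ℂ := exp (((Real.pi * (max 0 (min 1 s)) - Real.pi / 2 : ℝ) : ℂ) * I)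

theorem sc_cont : Continuous sc := by
  unfold sc
  fun_prop

theorem sc_norm (s : ℝ) : ‖sc s‖ = 1 := norm_exp_ofReal_mul_I _

theorem sc_re (s : ℝ) : 0 ≤ (sc s).re := by
  unfold sc
  rw [exp_ofReal_mul_I_re]
  have h1 : 0 ≤ max 0 (min 1 s) := le_max_left _ _
  have h2 : max 0 (min 1 s) ≤ 1 := max_le (by norm_num) (min_le_left _ _)
  have := Real.pi_pos
  apply Real.cos_nonneg_of_mem_Icc
  constructor <;> nlinarith

theorem sc_zero : sc 0 = -I := by
  unfold sc
  apply Complex.ext
  · rw [exp_ofReal_mul_I_re]; simp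
  · rw [exp_ofReal_mul_I_im]; simp

theorem sc_one : sc 1 = I := by
  unfold sc
  have h : Real.pi * (max 0 (min 1 1)) - Real.pi / 2 = Real.pi / 2 := by simp; ring
  rw [h]
  apply Complex.ext
  · rw [exp_ofReal_mul_I_re]; simp
  · rw [exp_ofReal_mul_I_im]; simp

theorem sc_surj {z : ℂ} (h1 : ‖z‖ = 1) (h2 : 0 ≤ z.re) : ∃ s ∈ Icc (0:ℝ) 1, sc s = z := by
  have hpi := Real.pi_pos
  have ha : |arg z| ≤ Real.pi / 2 := (abs_arg_le_pi_div_two_iff).2 h2
  rw [abs_le] at ha
  have hs : (arg z + Real.pi / 2) / Real.pi ∈ Icc (0:ℝ) 1 := by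
    constructor
    · apply div_nonneg <;> linarith
    · rw [div_le_one hpi]; linarith
  refine ⟨_, hs, ?_⟩
  unfold sc
  rw [min_eq_right hs.2, max_eq_right hs.1]
  have h3 : Real.pi * ((arg z + Real.pi / 2) / Real.pi) - Real.pi / 2 = arg z := by
    field_simp; ring
  rw [h3]
  have := norm_mul_exp_arg_mul_I z
  rw [h1] at this
  simpa using this

theorem sc_inj : InjOn sc (Icc 0 1) := by
  intro s hs t ht h
  have hpi := Real.pi_pos
  unfold sc at h
  rw [min_eq_right hs.2, max_eq_right hs.1, min_eq_right ht.2, max_eq_right ht.1] at h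
  have h1 := congrArg Complex.im h
  rw [exp_ofReal_mul_I_im, exp_ofReal_mul_I_im] at h1
  have h2 := Real.injOn_sin (x₁ := Real.pi * s - Real.pi / 2) (x₂ := Real.pi * t - Real.pi / 2)
    ⟨by nlinarith [hs.1], by nlinarith [hs.2]⟩ ⟨by nlinarith [ht.1], by nlinarith [ht.2]⟩ h1
  have h3 : Real.pi * s = Real.pi * t := by linarith
  exact mul_left_cancel₀ hpi.ne' h3

theorem normSq_of {z : ℂ} : ‖z‖ ^ 2 = z.re ^ 2 + z.im ^ 2 := by
  rw [← normSq_eq_norm_sq, normSq_apply]; ring

theorem lens_not_outer {γ : Circle → ℂ} (hγ : Continuous γ) (hinj : Function.Injective γ)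
    (hS : ∀ z : ℂ, ‖z‖ = 1 → 0 ≤ z.re → z ∈ range γ)
    (hW : ∀ z ∈ range γ, (‖z‖ = 1 ∧ 0 ≤ z.re) ∨ (z.re + 1) ^ 2 + z.im ^ 2 ≤ 2 ∨ z.re ≤ -2)
    {p : ℂ} (hp1 : p.re ^ 2 + p.im ^ 2 < 1) (hp2 : 2 < (p.re + 1) ^ 2 + p.im ^ 2) :
    p ∉ Outer (range γ) := by
  intro hout
  have hpre : 0 < p.re := by nlinarith
  have hCc : IsCompact (range γ) := isCompact_range hγ
  obtain ⟨R, hR⟩ := hCc.isBounded.exists_norm_le
  obtain ⟨β, hβ, hβ0, hβ1, hβC⟩ := outer_path hCc.isClosed hout R
  obtain ⟨A, hA, hA0, hA1, hAr, hAS⟩ := H828R2.exists_arc hγ hinj sc_cont sc_inj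
    (fun x => hS _ (sc_norm x) (sc_re x))
  have hscr : ∀ x, sc x ∈ range γ := fun x => hS _ (sc_norm x) (sc_re x)
  -- logs
  have mk : ∀ B : ℝ → ℂ, Continuous B → (∀ t, B t ∈ range γ) →
      ∃ k : ℝ × ℝ → ℂ, Continuous k ∧ ∀ x, exp (k x) = B x.1 - β x.2 := by
    intro B hB hBr
    refine H777R2.exists_log (X := ℝ × ℝ) (g := fun x => B x.1 - β x.2) (by fun_prop) ?_
    intro x hx
    rw [sub_eq_zero] at hx
    exact hβC x.2 (hx ▸ hBr x.1)
  obtain ⟨k1, hk1, hk1e⟩ := mk sc sc_cont hscr
  obtain ⟨k2, hk2, hk2e⟩ := mk A hA hAr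
  rw [sc_zero] at hA0
  rw [sc_one] at hA1
  set d : ℝ → ℂ := fun u => k1 (1, u) - k1 (0, u) - (k2 (1, u) - k2 (0, u)) with hd
  have hdc : Continuous d := by fun_prop
  have hde : ∀ u, exp (d u) = 1 := by
    intro u
    have hI : I - β u ≠ 0 := by
      intro h; rw [sub_eq_zero] at h; exact hβC u (h ▸ (sc_one ▸ hscr 1))
    have hI' : -I - β u ≠ 0 := by
      intro h; rw [sub_eq_zero] at h; exact hβC u (h ▸ (sc_zero ▸ hscr 0))
    simp only [hd, exp_sub, hk1e, hk2e, sc_zero, sc_one, hA0, hA1]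
    field_simp
  have hconst := H777R2.exp_const hdc hde 0 1
  -- value at 1
  have hq0 : β 1 ≠ 0 := by
    intro h
    rw [h, norm_zero] at hβ1
    have := hR _ (hscr 0)
    rw [sc_norm] at this
    linarith
  have far : ∀ z ∈ range γ, (z - β 1) / (-β 1) ∈ slitPlane := by
    intro z hz
    left
    have h1 : (z - β 1) / (-β 1) = 1 - z / β 1 := by field_simp; ring
    rw [h1, sub_re, one_re]
    have h2 : (z / β 1).re ≤ ‖z / β 1‖ := re_le_norm _
    have h3 : ‖z / β 1‖ < 1 := by
      rw [norm_div, div_lt_one (norm_pos_iff.2 hq0)]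
      exact (hR z hz).trans_lt hβ1
    linarith
  have v1 : d 1 = 0 := by
    have e1 := log_diff_on (g := fun s => sc s - β 1) (k := fun s => k1 (s, 1))
      (sc_cont.sub continuous_const) (hk1.comp (by fun_prop)) (fun s => hk1e _) (neg_ne_zero.2 hq0)
      (fun s _ => far _ (hscr s))
    have e2 := log_diff_on (g := fun s => A s - β 1) (k := fun s => k2 (s, 1))
      (hA.sub continuous_const) (hk2.comp (by fun_prop)) (fun s => hk2e _) (neg_ne_zero.2 hq0)
      (fun s _ => far _ (hAr s))
    simp only [sc_zero, sc_one] at e1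
    simp only [hA0, hA1] at e2
    simp only [hd]
    rw [e1, e2, sub_self]
  -- value at 0
  have hp1n : ‖p‖ < 1 := by
    have := normSq_of (z := p)
    nlinarith [norm_nonneg p]
  have v0 : d 0 = 2 * Real.pi * I := by
    have e1 := log_diff_on (g := fun s => sc s - β 0) (k := fun s => k1 (s, 0))
      (sc_cont.sub continuous_const) (hk1.comp (by fun_prop)) (fun s => hk1e _) one_ne_zero
      (fun s _ => by
        rw [div_one, hβ0, mem_slitPlane_iff]
        by_cases h : (sc s - p).im = 0
        · left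
          rw [sub_im, sub_eq_zero] at h
          have h1 := normSq_of (z := sc s)
          rw [sc_norm, h] at h1
          rw [sub_re]
          nlinarith [sc_re s]
        · right; exact h)
    have e2 := log_diff_on (g := fun s => A s - β 0) (k := fun s => k2 (s, 0))
      (hA.sub continuous_const) (hk2.comp (by fun_prop)) (fun s => hk2e _)
      (neg_ne_zero.2 one_ne_zero)
      (fun s hs => by
        have hAW : (A s).re ≤ -2 ∨ ((A s).re + 1) ^ 2 + (A s).im ^ 2 ≤ 2 := by
          rcases eq_or_lt_of_le hs.1 with h0 | h0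
          · right; rw [← h0, hA0]; norm_num
          rcases eq_or_lt_of_le hs.2 with h1 | h1
          · right; rw [h1, hA1]; norm_num
          rcases hW _ (hAr s) with h | h | h
          · exfalso
            obtain ⟨x, hx, hxe⟩ := sc_surj h.1 h.2
            exact hAS s ⟨h0, h1⟩ x hx hxe.symm
          · right; exact h
          · left; exact h
        have h3 : (A s - β 0) / (-1) = p - A s := by rw [hβ0]; ring
        rw [h3, mem_slitPlane_iff]
        by_cases h : (p - A s).im = 0
        · left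
          rw [sub_im, sub_eq_zero] at h
          rw [sub_re]
          rcases hAW with h4 | h4
          · linarith
          · rw [← h] at h4
            nlinarith
        · right; exact h)
    simp only [sc_zero, sc_one, hβ0, div_one] at e1
    simp only [hA0, hA1, hβ0] at e2
    have g1 : (I - p) / (-1) = -(I - p) := by ring
    have g2 : (-I - p) / (-1) = -(-I - p) := by ring
    have him : |p.im| < 1 := by
      rw [← sq_lt_one_iff_abs_lt_one]; nlinarith [sq_nonneg p.re]
    rw [abs_lt] at him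
    rw [g1, g2, log_neg_im_pos (z := I - p) (by simp; linarith),
      log_neg_im_neg (z := -I - p) (by simp; linarith)] at e2
    simp only [hd]
    rw [e1, e2]
    ring
  rw [v0, v1] at hconst
  have : (2 * Real.pi * I : ℂ).im = 0 := by rw [hconst]; simp
  simp at this

end Pool.Agent.H763R2.Sq
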