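import Pool.Agent.H763R2.Sq.Kkm
import Pool.Agent.H763R2.Sq.Sign

/-! The abstract criterion: squares with two vertices on a given path. -/

set_option autoImplicit false
open Complex Set Topology Metric

namespace Pool.Agent.H763R2.Sq

/-- the fourth and third vertices of the square erected to the left of the segment `A B` -/
noncomputable def Dv (A B : ℂ) : ℂ := A + I * (B - A)
noncomputable def Cv (A B : ℂ) : ℂ := B + I * (B - A)

theorem square_of_barrier {C : Set ℂ} (hC : IsClosed C) (hne : C.Nonempty) {σ : ℝ → ℂ}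
    (hσ : Continuous σ) (hσC : ∀ u ∈ Icc (0:ℝ) 1, σ u ∈ C) {Φ : ℂ → ℂ → ℝ}
    (hΦ : Continuous fun p : ℂ × ℂ => Φ p.1 p.2)
    (hdiag : ∀ z, Φ z z < 0)
    (hR1 : ∀ u ∈ Icc (1/2:ℝ) 1, 0 ≤ sg C (Dv (σ u) (σ 1)))
    (hR0 : ∀ u ∈ Icc (0:ℝ) (1/2), sg C (Dv (σ u) (σ 1)) ≤ 0)
    (hL0 : ∀ u ∈ Icc (0:ℝ) (1/2), 0 ≤ sg C (Cv (σ 0) (σ u)))
    (hL1 : ∀ u ∈ Icc (1/2:ℝ) 1, sg C (Cv (σ 0) (σ u)) ≤ 0)
    (hΦR : ∀ u ∈ Icc (0:ℝ) (1/2), 0 ≤ Φ (σ u) (σ 1))
    (hΦL : ∀ u ∈ Icc (1/2:ℝ) 1, 0 ≤ Φ (σ 0) (σ u))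
    (he : Cv (σ (1/2)) (σ 1) = Dv (σ 0) (σ (1/2)))
    (hb : ∀ u v, u ∈ Icc (0:ℝ) 1 → v ∈ Icc (0:ℝ) 1 → Φ (σ u) (σ v) = 0 →
      0 ≤ sg C (Dv (σ u) (σ v)) ∨ 0 ≤ sg C (Cv (σ u) (σ v))) :
    ∃ u ∈ Icc (0:ℝ) 1, ∃ v ∈ Icc (0:ℝ) 1, σ u ≠ σ v ∧ Dv (σ u) (σ v) ∈ C ∧
      Cv (σ u) (σ v) ∈ C := by
  let sa : ℝ × ℝ → ℝ := fun p => (1 - p.1) * (1 + p.2) / 2
  let tb : ℝ × ℝ → ℝ := fun p => (1 - p.1) * (1 + p.2) / 2 + p.1
  have hsa : Continuous sa := by fun_prop
  have htb : Continuous tb := by fun_prop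
  have msa : ∀ h ∈ Icc (0:ℝ) 1, ∀ l ∈ Icc (-1:ℝ) 1, sa (h, l) ∈ Icc (0:ℝ) 1 := by
    intro h hh l hl
    have h1 : 0 ≤ (1 - h) * (1 + l) := mul_nonneg (by linarith [hh.2]) (by linarith [hl.1])
    have h2 : 0 ≤ (1 - h) * (1 - l) := mul_nonneg (by linarith [hh.2]) (by linarith [hl.2])
    constructor
    · show 0 ≤ (1 - h) * (1 + l) / 2
      linarith
    · show (1 - h) * (1 + l) / 2 ≤ 1
      linarith [hh.1]
  have mtb : ∀ h ∈ Icc (0:ℝ) 1, ∀ l ∈ Icc (-1:ℝ) 1, tb (h, l) ∈ Icc (0:ℝ) 1 := by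
    intro h hh l hl
    have h1 : 0 ≤ (1 - h) * (1 + l) := mul_nonneg (by linarith [hh.2]) (by linarith [hl.1])
    have h2 : 0 ≤ (1 - h) * (1 - l) := mul_nonneg (by linarith [hh.2]) (by linarith [hl.2])
    constructor
    · show 0 ≤ (1 - h) * (1 + l) / 2 + h
      linarith [hh.1]
    · show (1 - h) * (1 + l) / 2 + h ≤ 1
      linarith [hh.1]
  let A : ℝ × ℝ → ℂ := fun p => σ (sa p)
  let B : ℝ × ℝ → ℂ := fun p => σ (tb p)
  have hA : Continuous A := hσ.comp hsa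
  have hB : Continuous B := hσ.comp htb
  let x0 : ℝ × ℝ → ℝ := fun p => sg C (Dv (A p) (B p))
  let y0 : ℝ × ℝ → ℝ := fun p => sg C (Cv (A p) (B p))
  let φ : ℝ × ℝ → ℝ := fun p => Φ (A p) (B p)
  have hsg := sg_cont hC hne
  have hx0 : Continuous x0 := by
    refine hsg.comp ?_
    unfold Dv
    fun_prop
  have hy0 : Continuous y0 := by
    refine hsg.comp ?_
    unfold Cv
    fun_prop
  have hφ : Continuous φ := hΦ.comp (hA.prodMk hB)
  -- edges
  have sr : ∀ h, sa (h, 1) = 1 - h := by intro h; simp only [sa]; ring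
  have tr : ∀ h, tb (h, 1) = 1 := by intro h; simp only [tb]; ring
  have sl : ∀ h, sa (h, -1) = 0 := by intro h; simp only [sa]; ring
  have tl : ∀ h, tb (h, -1) = h := by intro h; simp only [tb]; ring
  have st : ∀ l, sa (1, l) = 0 := by intro l; simp only [sa]; ring
  have tt : ∀ l, tb (1, l) = 1 := by intro l; simp only [tb]; ring
  have s0 : ∀ l, sa (0, l) = tb (0, l) := by intro l; simp only [sa, tb]; ring
  have key : ∀ n : ℕ, ∃ p ∈ Icc (0:ℝ) 1 ×ˢ Icc (-1:ℝ) 1,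
      x0 p + n * max 0 (- φ p) = 0 ∧ y0 p + n * max 0 (- φ p) = 0 := by
    intro n
    have hn : (0:ℝ) ≤ n := Nat.cast_nonneg n
    have hmod : ∀ p, 0 ≤ (n:ℝ) * max 0 (- φ p) := fun p => mul_nonneg hn (le_max_left _ _)
    have hmod0 : ∀ p, 0 ≤ φ p → (n:ℝ) * max 0 (- φ p) = 0 := by
      intro p hp
      rw [max_eq_left (by linarith), mul_zero]
    have bot : ∀ l ∈ Icc (-1:ℝ) 1, x0 (0, l) = 0 ∧ y0 (0, l) = 0 := by
      intro l hl
      have h1 : A (0, l) = B (0, l) := by simp only [A, B]; rw [s0]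
      have h2 : A (0, l) ∈ C := hσC _ (msa 0 ⟨le_rfl, zero_le_one⟩ l hl)
      constructor
      · simp only [x0, Dv]
        rw [← h1, sub_self, mul_zero, add_zero]
        exact (sg_eq_zero hC hne).2 h2
      · simp only [y0, Cv]
        rw [← h1, sub_self, mul_zero, add_zero]
        exact (sg_eq_zero hC hne).2 h2
    have right : ∀ h ∈ Icc (0:ℝ) 1, x0 (h, 1) = sg C (Dv (σ (1 - h)) (σ 1)) := by
      intro h _
      simp only [x0, A, B]
      rw [sr, tr]
    have left : ∀ h ∈ Icc (0:ℝ) 1, y0 (h, -1) = sg C (Cv (σ 0) (σ h)) := by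
      intro h _
      simp only [y0, A, B]
      rw [sl, tl]
    have rφ : ∀ h, φ (h, 1) = Φ (σ (1 - h)) (σ 1) := by
      intro h
      simp only [φ, A, B]
      rw [sr, tr]
    have lφ : ∀ h, φ (h, -1) = Φ (σ 0) (σ h) := by
      intro h
      simp only [φ, A, B]
      rw [sl, tl]
    have tφ : ∀ l, φ (1, l) = Φ (σ 0) (σ 1) := by
      intro l
      simp only [φ, A, B]
      rw [st, tt]
    have hΦ01 : 0 ≤ Φ (σ 0) (σ 1) := hΦL 1 (by norm_num)
    obtain ⟨h, hh, l, hl, e1, e2⟩ := zero_lemma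
      (x := fun p => x0 p + n * max 0 (- φ p)) (y := fun p => y0 p + n * max 0 (- φ p))
      (by fun_prop) (by fun_prop) (a := 0) (c := 1/2) (b := 1) (by norm_num) (by norm_num)
      (fun l hl => by
        rw [(bot l ⟨by linarith [hl.1], hl.2⟩).1, zero_add]
        exact hmod _)
      (fun l hl => by
        rw [(bot l ⟨hl.1, by linarith [hl.2]⟩).2, zero_add]
        exact hmod _)
      (fun h hh => by
        rw [right h ⟨hh.1, by linarith [hh.2]⟩]
        exact add_nonneg (hR1 _ ⟨by linarith [hh.2], by linarith [hh.1]⟩) (hmod _))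
      (fun h hh => by
        rw [right h ⟨by linarith [hh.1], hh.2⟩, hmod0, add_zero]
        · exact hR0 _ ⟨by linarith [hh.2], by linarith [hh.1]⟩
        · rw [rφ]; exact hΦR _ ⟨by linarith [hh.2], by linarith [hh.1]⟩)
      (fun h hh => by
        rw [left h ⟨hh.1, by linarith [hh.2]⟩]
        exact add_nonneg (hL0 _ hh) (hmod _))
      (fun h hh => by
        rw [left h ⟨by linarith [hh.1], hh.2⟩, hmod0, add_zero]
        · exact hL1 _ hh
        · rw [lφ]; exact hΦL _ hh)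
      (by
        rw [hmod0, hmod0, add_zero, add_zero]
        · simp only [x0, y0, A, B]
          rw [sr, tr, sl, tl]
          have : (1:ℝ) - 1/2 = 1/2 := by norm_num
          rw [this, he]
        · rw [lφ]; exact hΦL _ (by norm_num)
        · rw [rφ]; exact hΦR _ (by norm_num))
      (fun l _ => by
        simp only [x0, A, B]
        rw [tφ, tφ, st, tt, st, tt])
      (fun l _ => by
        simp only [y0, A, B]
        rw [tφ, tφ, st, tt, st, tt])
      (by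
        rw [hmod0, add_zero, right 1 (by norm_num)]
        · have := hR0 0 (by norm_num)
          simpa using this
        · rw [tφ]; exact hΦ01)
      (by
        rw [hmod0, add_zero]
        · simp only [y0, A, B]
          rw [st, tt]
          exact hL1 1 (by norm_num)
        · rw [tφ]; exact hΦ01)
    exact ⟨(h, l), ⟨hh, hl⟩, e1, e2⟩
  choose p hpm hpx hpy using key
  have hcomp : IsCompact (Icc (0:ℝ) 1 ×ˢ Icc (-1:ℝ) 1) := isCompact_Icc.prod isCompact_Icc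
  obtain ⟨q, hq, ψ, hψ, hlim⟩ := hcomp.tendsto_subseq hpm
  have lx : Filter.Tendsto (fun n => x0 (p (ψ n))) Filter.atTop (𝓝 (x0 q)) :=
    (hx0.tendsto q).comp hlim
  have ly : Filter.Tendsto (fun n => y0 (p (ψ n))) Filter.atTop (𝓝 (y0 q)) :=
    (hy0.tendsto q).comp hlim
  have lφ : Filter.Tendsto (fun n => φ (p (ψ n))) Filter.atTop (𝓝 (φ q)) :=
    (hφ.tendsto q).comp hlim
  have hxy : x0 q = y0 q := by
    refine tendsto_nhds_unique lx (ly.congr fun n => ?_)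
    linarith [hpx (ψ n), hpy (ψ n)]
  have hx_le : x0 q ≤ 0 := by
    refine le_of_tendsto lx (Filter.Eventually.of_forall fun n => ?_)
    have := mul_nonneg (Nat.cast_nonneg (α := ℝ) (ψ n)) (le_max_left 0 (- φ (p (ψ n))))
    linarith [hpx (ψ n)]
  have hφq : 0 ≤ φ q := by
    by_contra hneg
    push Not at hneg
    -- the product tends to infinity
    have h1 : ∀ᶠ n in Filter.atTop, φ (p (ψ n)) < φ q / 2 :=
      lφ.eventually (gt_mem_nhds (by linarith))
    have h2 : ∀ᶠ n in Filter.atTop, x0 q - 1 < x0 (p (ψ n)) :=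
      lx.eventually (lt_mem_nhds (by linarith))
    have h3 : ∀ᶠ n : ℕ in Filter.atTop, (1 - x0 q) / (- φ q / 2) < (ψ n : ℝ) := by
      have : Filter.Tendsto (fun n => ((ψ n : ℕ) : ℝ)) Filter.atTop Filter.atTop :=
        tendsto_natCast_atTop_atTop.comp hψ.tendsto_atTop
      exact this.eventually (Filter.eventually_gt_atTop _)
    obtain ⟨n, a1, a2, a3⟩ := (h1.and (h2.and h3)).exists
    rw [div_lt_iff₀ (by linarith)] at a3
    have a4 : - φ q / 2 ≤ max 0 (- φ (p (ψ n))) := le_max_of_le_right (by linarith)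
    have a5 := mul_le_mul_of_nonneg_left a4 (Nat.cast_nonneg (α := ℝ) (ψ n))
    linarith [hpx (ψ n)]
  have hx0q : x0 q = 0 := by
    rcases eq_or_lt_of_le hφq with h0 | h0
    · rcases hb _ _ (msa _ hq.1 _ hq.2) (mtb _ hq.1 _ hq.2) h0.symm with h | h
      · exact le_antisymm hx_le h
      · rw [hxy] at hx_le ⊢
        exact le_antisymm hx_le h
    · have h1 : ∀ᶠ n in Filter.atTop, 0 < φ (p (ψ n)) := lφ.eventually (lt_mem_nhds h0)
      refine tendsto_nhds_unique lx (tendsto_const_nhds.congr' ?_)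
      filter_upwards [h1] with n hn
      have := hpx (ψ n)
      rw [max_eq_left (by linarith), mul_zero, add_zero] at this
      exact this.symm
  refine ⟨sa q, msa _ hq.1 _ hq.2, tb q, mtb _ hq.1 _ hq.2, ?_, ?_, ?_⟩
  · intro h
    have h1 : φ q < 0 := by
      simp only [φ, A, B]
      rw [h]
      exact hdiag _
    linarith
  · exact (sg_eq_zero hC hne).1 hx0q
  · have hy0q : y0 q = 0 := by rw [← hxy]; exact hx0q
    exact (sg_eq_zero hC hne).1 hy0q

end Pool.Agent.H763R2.Sq
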