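import Pool.Agent.H777R2.Top

/-! A planar zero lemma for two sign functions on a rectangle. -/

set_option autoImplicit false
open Complex Set Topology

namespace Pool.Agent.H763R2.Sq

theorem band {a b : ℝ} {ψ : ℝ → ℝ} (hψ : ContinuousOn ψ (Icc a b))
    (hc : ∀ x ∈ Icc a b, 0 ≤ Real.cos (ψ x)) (h0 : |ψ a| ≤ Real.pi / 2) :
    ∀ x ∈ Icc a b, |ψ x| ≤ Real.pi / 2 := by
  intro x hx
  by_contra hcon
  push Not at hcon
  have hpi := Real.pi_pos
  have habs : ContinuousOn (fun y => |ψ y|) (Icc a x) :=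
    (hψ.mono (Icc_subset_Icc_right hx.2)).abs
  -- a value strictly between pi/2 and 3pi/2
  obtain ⟨v, hv1, hv2, hv3⟩ : ∃ v, Real.pi / 2 < v ∧ v ≤ |ψ x| ∧ v < 3 * Real.pi / 2 := by
    refine ⟨min (|ψ x|) Real.pi, ?_, min_le_left _ _, ?_⟩
    · exact lt_min hcon (by linarith)
    · exact (min_le_right _ _).trans_lt (by linarith)
  have := intermediate_value_Icc hx.1 habs (show v ∈ Icc (|ψ a|) (|ψ x|) from ⟨by linarith, hv2⟩)
  obtain ⟨y, hy, hyv⟩ := this
  have h1 := hc y ⟨hy.1, hy.2.trans hx.2⟩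
  have h2 : Real.cos (ψ y) < 0 := by
    rw [← Real.cos_abs]
    simp only at hyv
    rw [hyv]
    exact Real.cos_neg_of_pi_div_two_lt_of_lt hv1 (by linarith)
  linarith

/-- the version with decreasing parameter -/
theorem band' {a b : ℝ} {ψ : ℝ → ℝ} (hψ : ContinuousOn ψ (Icc a b))
    (hc : ∀ x ∈ Icc a b, 0 ≤ Real.cos (ψ x)) (h0 : |ψ b| ≤ Real.pi / 2) :
    ∀ x ∈ Icc a b, |ψ x| ≤ Real.pi / 2 := by
  intro x hx
  have := band (a := -b) (b := -a) (ψ := fun y => ψ (-y))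
    (hψ.comp continuous_neg.continuousOn (fun y hy => ⟨by linarith [hy.2], by linarith [hy.1]⟩))
    (fun y hy => hc _ ⟨by linarith [hy.2], by linarith [hy.1]⟩) (by simpa using h0) (-x)
    ⟨by linarith [hx.2], by linarith [hx.1]⟩
  simpa using this

/-- Zero lemma.  `x, y` have the following signs on the boundary of the rectangle `[a,b] × [-1,1]`:
on `{a} × [0,1]` and `[a,c] × {1}` `x ≥ 0`; on `[c,b] × {1}` `x ≤ 0`; on `{a} × [-1,0]` and
`[a,c] × {-1}` `y ≥ 0`; on `[c,b] × {-1}` `y ≤ 0`; on `{b} × [-1,1]` both are constant and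
`≤ 0`; and `y (c,1) = x (c,-1)`.  Then `x` and `y` have a common zero. -/
theorem zero_lemma {x y : ℝ × ℝ → ℝ} (hx : Continuous x) (hy : Continuous y) {a c b : ℝ}
    (hac : a ≤ c) (hcb : c ≤ b)
    (b1 : ∀ l ∈ Icc (0:ℝ) 1, 0 ≤ x (a, l)) (b2 : ∀ l ∈ Icc (-1:ℝ) 0, 0 ≤ y (a, l))
    (r1 : ∀ h ∈ Icc a c, 0 ≤ x (h, 1)) (r2 : ∀ h ∈ Icc c b, x (h, 1) ≤ 0)
    (l1 : ∀ h ∈ Icc a c, 0 ≤ y (h, -1)) (l2 : ∀ h ∈ Icc c b, y (h, -1) ≤ 0)
    (e : y (c, 1) = x (c, -1))
    (t1 : ∀ l ∈ Icc (-1:ℝ) 1, x (b, l) = x (b, 1)) (t2 : ∀ l ∈ Icc (-1:ℝ) 1, y (b, l) = y (b, 1))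
    (t3 : x (b, 1) ≤ 0) (t4 : y (b, 1) ≤ 0) :
    ∃ h ∈ Icc a b, ∃ l ∈ Icc (-1:ℝ) 1, x (h, l) = 0 ∧ y (h, l) = 0 := by
  by_contra hcon
  push Not at hcon
  have hpi := Real.pi_pos
  -- clamp
  let cl : ℝ × ℝ → ℝ × ℝ := fun p => (max a (min b p.1), max (-1) (min 1 p.2))
  have hcl : Continuous cl := by fun_prop
  have hclm : ∀ p, (cl p).1 ∈ Icc a b ∧ (cl p).2 ∈ Icc (-1:ℝ) 1 := by
    intro p
    refine ⟨⟨le_max_left _ _, max_le (hac.trans hcb) (min_le_left _ _)⟩,
      ⟨le_max_left _ _, max_le (by norm_num) (min_le_left _ _)⟩⟩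
  have hclid : ∀ h l, h ∈ Icc a b → l ∈ Icc (-1:ℝ) 1 → cl (h, l) = (h, l) := by
    intro h l hh hl
    simp only [cl]
    rw [min_eq_right hh.2, max_eq_right hh.1, min_eq_right hl.2, max_eq_right hl.1]
  let G : ℝ × ℝ → ℂ := fun p => (x (cl p) : ℂ) + (y (cl p) : ℂ) * I
  have hG : Continuous G := by
    have h1 : Continuous fun p => x (cl p) := hx.comp hcl
    have h2 : Continuous fun p => y (cl p) := hy.comp hcl
    exact (continuous_ofReal.comp h1).add ((continuous_ofReal.comp h2).mul continuous_const)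
  have hGre : ∀ p, (G p).re = x (cl p) := by intro p; simp [G]
  have hGim : ∀ p, (G p).im = y (cl p) := by intro p; simp [G]
  have hG0 : ∀ p, G p ≠ 0 := by
    intro p h
    have h1 : x (cl p) = 0 := by rw [← hGre, h]; simp
    have h2 : y (cl p) = 0 := by rw [← hGim, h]; simp
    exact hcon _ (hclm p).1 _ (hclm p).2 h1 h2
  obtain ⟨k, hk, hkG⟩ := H777R2.exists_log hG hG0
  -- argument function
  let φ0 : ℝ × ℝ → ℝ := fun p => (k p).im
  have hφ0 : Continuous φ0 := continuous_im.comp hk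
  have hxc : ∀ h l, h ∈ Icc a b → l ∈ Icc (-1:ℝ) 1 →
      x (h, l) = Real.exp (k (h, l)).re * Real.cos (φ0 (h, l)) := by
    intro h l hh hl
    rw [← hclid h l hh hl, ← hGre, hclid h l hh hl, ← hkG, exp_re]
  have hyc : ∀ h l, h ∈ Icc a b → l ∈ Icc (-1:ℝ) 1 →
      y (h, l) = Real.exp (k (h, l)).re * Real.sin (φ0 (h, l)) := by
    intro h l hh hl
    rw [← hclid h l hh hl, ← hGim, hclid h l hh hl, ← hkG, exp_im]
  have ma : a ∈ Icc a b := ⟨le_rfl, hac.trans hcb⟩
  have mc : c ∈ Icc a b := ⟨hac, hcb⟩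
  have mb : b ∈ Icc a b := ⟨hac.trans hcb, le_rfl⟩
  -- shift
  obtain ⟨n, hn⟩ : ∃ n : ℤ, φ0 (a, 0) - n * (2 * Real.pi) ∈ Ioc (-Real.pi) Real.pi := by
    obtain ⟨n, hn, -⟩ := existsUnique_sub_zsmul_mem_Ioc (Real.two_pi_pos) (φ0 (a, 0)) (-Real.pi)
    refine ⟨n, ?_⟩
    rw [zsmul_eq_mul] at hn
    exact ⟨hn.1, hn.2.trans (by linarith)⟩
  let φ : ℝ × ℝ → ℝ := fun p => φ0 p - n * (2 * Real.pi)
  have hφ : Continuous φ := hφ0.sub continuous_const
  have hcos : ∀ p, Real.cos (φ p) = Real.cos (φ0 p) := fun p => Real.cos_sub_int_mul_two_pi _ _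
  have hsin : ∀ p, Real.sin (φ p) = Real.sin (φ0 p) := fun p => Real.sin_sub_int_mul_two_pi _ _
  -- sign transfer
  have cpos : ∀ h l, h ∈ Icc a b → l ∈ Icc (-1:ℝ) 1 → 0 ≤ x (h, l) → 0 ≤ Real.cos (φ (h, l)) := by
    intro h l hh hl h1
    rw [hcos]; rw [hxc h l hh hl] at h1
    exact nonneg_of_mul_nonneg_right h1 (Real.exp_pos _)
  have cneg : ∀ h l, h ∈ Icc a b → l ∈ Icc (-1:ℝ) 1 → x (h, l) ≤ 0 → Real.cos (φ (h, l)) ≤ 0 := by
    intro h l hh hl h1
    rw [hcos]; rw [hxc h l hh hl] at h1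
    by_contra h2
    push Not at h2
    nlinarith [mul_pos (Real.exp_pos (k (h, l)).re) h2]
  have spos : ∀ h l, h ∈ Icc a b → l ∈ Icc (-1:ℝ) 1 → 0 ≤ y (h, l) → 0 ≤ Real.sin (φ (h, l)) := by
    intro h l hh hl h1
    rw [hsin]; rw [hyc h l hh hl] at h1
    exact nonneg_of_mul_nonneg_right h1 (Real.exp_pos _)
  have sneg : ∀ h l, h ∈ Icc a b → l ∈ Icc (-1:ℝ) 1 → y (h, l) ≤ 0 → Real.sin (φ (h, l)) ≤ 0 := by
    intro h l hh hl h1
    rw [hsin]; rw [hyc h l hh hl] at h1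
    by_contra h2
    push Not at h2
    nlinarith [mul_pos (Real.exp_pos (k (h, l)).re) h2]
  have cl1 : ∀ {s : ℝ → ℝ × ℝ}, Continuous s → ∀ α : ℝ, ∀ A : Set ℝ,
      ContinuousOn (fun t => φ (s t) - α) A := by
    intro s hs α A
    exact ((hφ.comp hs).sub continuous_const).continuousOn
  have m1 : (1:ℝ) ∈ Icc (-1:ℝ) 1 := by norm_num
  have mm1 : (-1:ℝ) ∈ Icc (-1:ℝ) 1 := by norm_num
  have m0 : (0:ℝ) ∈ Icc (-1:ℝ) 1 := by norm_num
  -- base point
  have base1 : 0 ≤ Real.cos (φ (a, 0)) := cpos a 0 ma m0 (b1 0 (by norm_num))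
  have base2 : 0 ≤ Real.sin (φ (a, 0)) := spos a 0 ma m0 (b2 0 (by norm_num))
  have baser : 0 ≤ φ (a, 0) ∧ φ (a, 0) ≤ Real.pi / 2 := by
    have h1 : -Real.pi < φ (a, 0) := hn.1
    have h2 : φ (a, 0) ≤ Real.pi := hn.2
    constructor
    · by_contra h3
      push Not at h3
      have := Real.sin_neg_of_neg_of_neg_pi_lt h3 h1
      linarith
    · by_contra h3
      push Not at h3
      have := Real.cos_neg_of_pi_div_two_lt_of_lt h3 (by linarith)
      linarith
  -- right side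
  have R1 : |φ (a, 1)| ≤ Real.pi / 2 := by
    have := band (a := 0) (b := 1) (ψ := fun t => φ (a, t) - 0)
      (cl1 (s := fun t => (a, t)) (by fun_prop) 0 _)
      (fun t ht => by
        rw [sub_zero]
        exact cpos a t ma ⟨by linarith [ht.1], ht.2⟩ (b1 t ht))
      (by rw [sub_zero, abs_le]; constructor <;> linarith [baser.1, baser.2]) 1 (by norm_num)
    simpa using this
  have R2 : |φ (c, 1)| ≤ Real.pi / 2 := by
    have := band (a := a) (b := c) (ψ := fun t => φ (t, 1) - 0)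
      (cl1 (s := fun t => (t, 1)) (by fun_prop) 0 _)
      (fun t ht => by
        rw [sub_zero]
        exact cpos t 1 ⟨ht.1, ht.2.trans hcb⟩ m1 (r1 t ht))
      (by simpa using R1) c ⟨hac, le_rfl⟩
    simpa using this
  have xc1 : x (c, 1) = 0 := le_antisymm (r2 c ⟨le_rfl, hcb⟩) (r1 c ⟨hac, le_rfl⟩)
  have ycm : y (c, -1) = 0 := le_antisymm (l2 c ⟨le_rfl, hcb⟩) (l1 c ⟨hac, le_rfl⟩)
  have cc1 : Real.cos (φ (c, 1)) = 0 :=
    le_antisymm (cneg c 1 mc m1 xc1.le) (cpos c 1 mc m1 xc1.ge)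
  have scm : Real.sin (φ (c, -1)) = 0 :=
    le_antisymm (sneg c (-1) mc mm1 ycm.le) (spos c (-1) mc mm1 ycm.ge)
  -- left side
  have L1 : |φ (a, -1) - Real.pi / 2| ≤ Real.pi / 2 := by
    have := band' (a := -1) (b := 0) (ψ := fun t => φ (a, t) - Real.pi / 2)
      (cl1 (s := fun t => (a, t)) (by fun_prop) _ _)
      (fun t ht => by
        rw [Real.cos_sub_pi_div_two]
        exact spos a t ma ⟨ht.1, by linarith [ht.2]⟩ (b2 t ht))
      (by rw [abs_le]; constructor <;> linarith [baser.1, baser.2]) (-1) (by norm_num)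
    simpa using this
  have L2 : |φ (c, -1) - Real.pi / 2| ≤ Real.pi / 2 := by
    have := band (a := a) (b := c) (ψ := fun t => φ (t, -1) - Real.pi / 2)
      (cl1 (s := fun t => (t, -1)) (by fun_prop) _ _)
      (fun t ht => by
        rw [Real.cos_sub_pi_div_two]
        exact spos t (-1) ⟨ht.1, ht.2.trans hcb⟩ mm1 (l1 t ht))
      (by simpa using L1) c ⟨hac, le_rfl⟩
    simpa using this
  rw [abs_le] at R2 L2
  -- constancy along the top
  have top : φ (b, -1) = φ (b, 1) := by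
    have h1 : ∀ l ∈ Icc (-1:ℝ) 1, exp (k (b, l)) = G (b, 1) := by
      intro l hl
      rw [hkG]
      apply Complex.ext
      · rw [hGre, hGre, hclid b l mb hl, hclid b 1 mb m1]; exact t1 l hl
      · rw [hGim, hGim, hclid b l mb hl, hclid b 1 mb m1]; exact t2 l hl
    have h2 := H777R2.exp_const_on (A := Icc (-1:ℝ) 1) isPreconnected_Icc
      (k := fun l => k (b, l)) (hk.comp (by fun_prop)).continuousOn h1 mm1 m1
    simp only [φ, φ0]
    rw [h2]
  have tc : Real.cos (φ (b, 1)) ≤ 0 := cneg b 1 mb m1 t3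
  have ts : Real.sin (φ (b, 1)) ≤ 0 := sneg b 1 mb m1 t4
  -- the value at the two corners
  have hne : x (c, -1) ≠ 0 := fun h => hcon c mc (-1) mm1 h ycm
  rcases lt_or_gt_of_ne hne with hneg | hpos
  · -- φ(c,1) = -π/2, φ(c,-1) = π
    have e1 : Real.sin (φ (c, 1)) < 0 := by
      have h1 : y (c, 1) < 0 := by rw [e]; exact hneg
      rw [hyc c 1 mc m1] at h1
      rw [hsin]
      by_contra h2
      push Not at h2
      linarith [mul_nonneg (Real.exp_pos (k (c, 1)).re).le h2]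
    have e2 : Real.cos (φ (c, -1)) < 0 := by
      have h1 := hneg
      rw [hxc c (-1) mc mm1] at h1
      rw [hcos]
      by_contra h2
      push Not at h2
      linarith [mul_nonneg (Real.exp_pos (k (c, -1)).re).le h2]
    have f1 : φ (c, 1) < 0 := by
      by_contra h
      push Not at h
      have := Real.sin_nonneg_of_nonneg_of_le_pi h (by linarith)
      linarith
    have f2 : Real.pi / 2 < φ (c, -1) := by
      by_contra h
      push Not at h
      have := Real.cos_nonneg_of_mem_Icc (x := φ (c, -1)) ⟨by linarith, h⟩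
      linarith
    have R3 : |φ (b, 1) - (-Real.pi)| ≤ Real.pi / 2 := by
      refine band (a := c) (b := b) (ψ := fun t => φ (t, 1) - (-Real.pi))
        (cl1 (s := fun t => (t, 1)) (by fun_prop) _ _)
        (fun t ht => ?_) ?_ b ⟨hcb, le_rfl⟩
      · rw [sub_neg_eq_add, Real.cos_add_pi]
        have := cneg t 1 ⟨hac.trans ht.1, ht.2⟩ m1 (r2 t ht)
        linarith
      · have : φ (c, 1) = -(Real.pi / 2) := by
          by_contra h
          have h3 : -(Real.pi / 2) < φ (c, 1) := lt_of_le_of_ne R2.1 (Ne.symm h)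
          have := Real.cos_pos_of_mem_Ioo (x := φ (c, 1)) ⟨h3, by linarith⟩
          linarith
        rw [this, abs_le]; constructor <;> linarith
    have L3 : |φ (b, -1) - 3 * Real.pi / 2| ≤ Real.pi / 2 := by
      refine band (a := c) (b := b) (ψ := fun t => φ (t, -1) - 3 * Real.pi / 2)
        (cl1 (s := fun t => (t, -1)) (by fun_prop) _ _)
        (fun t ht => ?_) ?_ b ⟨hcb, le_rfl⟩
      · have h3 : φ (t, -1) - 3 * Real.pi / 2 = φ (t, -1) - Real.pi / 2 - Real.pi := by ring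
        rw [h3, Real.cos_sub_pi, Real.cos_sub_pi_div_two]
        have := sneg t (-1) ⟨hac.trans ht.1, ht.2⟩ mm1 (l2 t ht)
        linarith
      · have : φ (c, -1) = Real.pi := by
          by_contra h
          have h3 : φ (c, -1) < Real.pi := lt_of_le_of_ne (by linarith [L2.2]) h
          have := Real.sin_pos_of_pos_of_lt_pi (x := φ (c, -1)) (by linarith) h3
          linarith
        rw [this, abs_le]; constructor <;> linarith
    rw [abs_le] at R3 L3
    rw [top] at L3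
    linarith [R3.2, L3.1]
  · -- φ(c,1) = π/2, φ(c,-1) = 0
    have e1 : 0 < Real.sin (φ (c, 1)) := by
      have h1 : 0 < y (c, 1) := by rw [e]; exact hpos
      rw [hyc c 1 mc m1] at h1
      rw [hsin]
      exact (pos_iff_pos_of_mul_pos h1).1 (Real.exp_pos _)
    have e2 : 0 < Real.cos (φ (c, -1)) := by
      have h1 := hpos
      rw [hxc c (-1) mc mm1] at h1
      rw [hcos]
      exact (pos_iff_pos_of_mul_pos h1).1 (Real.exp_pos _)
    have f1 : φ (c, 1) = Real.pi / 2 := by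
      by_contra h
      have h3 : φ (c, 1) < Real.pi / 2 := lt_of_le_of_ne R2.2 h
      rcases eq_or_lt_of_le R2.1 with h4 | h4
      · rw [← h4, Real.sin_neg, Real.sin_pi_div_two] at e1
        linarith
      · have := Real.cos_pos_of_mem_Ioo (x := φ (c, 1)) ⟨h4, h3⟩
        linarith
    have f2 : φ (c, -1) = 0 := by
      by_contra h
      have h3 : 0 < φ (c, -1) := lt_of_le_of_ne (by linarith [L2.1]) (Ne.symm h)
      rcases eq_or_lt_of_le (show φ (c, -1) ≤ Real.pi by linarith [L2.2]) with h4 | h4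
      · rw [h4, Real.cos_pi] at e2
        linarith
      · have := Real.sin_pos_of_pos_of_lt_pi h3 h4
        linarith
    have R3 : |φ (b, 1) - Real.pi| ≤ Real.pi / 2 := by
      refine band (a := c) (b := b) (ψ := fun t => φ (t, 1) - Real.pi)
        (cl1 (s := fun t => (t, 1)) (by fun_prop) _ _)
        (fun t ht => ?_) ?_ b ⟨hcb, le_rfl⟩
      · rw [Real.cos_sub_pi]
        have := cneg t 1 ⟨hac.trans ht.1, ht.2⟩ m1 (r2 t ht)
        linarith
      · rw [f1, abs_le]; constructor <;> linarith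
    have L3 : |φ (b, -1) - (-(Real.pi / 2))| ≤ Real.pi / 2 := by
      refine band (a := c) (b := b) (ψ := fun t => φ (t, -1) - (-(Real.pi / 2)))
        (cl1 (s := fun t => (t, -1)) (by fun_prop) _ _)
        (fun t ht => ?_) ?_ b ⟨hcb, le_rfl⟩
      · rw [sub_neg_eq_add, Real.cos_add_pi_div_two]
        have := sneg t (-1) ⟨hac.trans ht.1, ht.2⟩ mm1 (l2 t ht)
        linarith
      · rw [f2, abs_le]; constructor <;> linarith
    rw [abs_le] at R3 L3
    rw [top] at L3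
    -- φ(b,1) ∈ [π/2, 3π/2] and ≤ 0
    linarith [R3.1, L3.2]

end Pool.Agent.H763R2.Sq
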